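import Pool.Agent.H75.PRL.S4

/-!
# Almost all the elements of a coordinate subspace are balanced

Module BLC: second moments over all subsets.
-/

set_option autoImplicit false
set_option linter.unusedSectionVars false

namespace Pool.PRL

section Moments

variable {T : Type} [Fintype T] [DecidableEq T]

/-- The sign of an element. -/
noncomputable def sgn (v : T) (S : Finset T) : ℝ := if v ∈ S then 1 else -1

/-- Toggling one element. -/
def tog (v : T) : Equiv.Perm (Finset T) where
  toFun := fun S => symmDiff S {v}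
  invFun := fun S => symmDiff S {v}
  left_inv := fun S => symmDiff_symmDiff_cancel_right {v} S
  right_inv := fun S => symmDiff_symmDiff_cancel_right {v} S

lemma mem_tog (v w : T) (S : Finset T) : w ∈ tog v S ↔ (if w = v then w ∉ S else w ∈ S) := by
  change w ∈ symmDiff S {v} ↔ _
  rw [Finset.mem_symmDiff, Finset.mem_singleton]
  split_ifs with h
  · simp [h]
  · simp [h]

lemma sum_sgn_mul {v w : T} (h : v ≠ w) : ∑ S : Finset T, sgn v S * sgn w S = 0 := by
  have h1 : ∑ S : Finset T, sgn v S * sgn w S =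
      ∑ S : Finset T, sgn v (tog v S) * sgn w (tog v S) :=
    (Equiv.sum_comp (tog v) (fun S => sgn v S * sgn w S)).symm
  have h2 : ∀ S : Finset T, sgn v (tog v S) * sgn w (tog v S) = -(sgn v S * sgn w S) := by
    intro S
    have e1 : sgn v (tog v S) = -sgn v S := by
      unfold sgn
      by_cases hv : v ∈ S
      · rw [if_pos hv, if_neg]
        rw [mem_tog, if_pos rfl]
        exact not_not.2 hv
      · rw [if_neg hv, if_pos, neg_neg]
        rw [mem_tog, if_pos rfl]
        exact hv
    have e2 : sgn w (tog v S) = sgn w S := by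
      unfold sgn
      have : w ∈ tog v S ↔ w ∈ S := by rw [mem_tog, if_neg h.symm]
      by_cases hw : w ∈ S
      · rw [if_pos hw, if_pos (this.2 hw)]
      · rw [if_neg hw, if_neg (fun h' => hw (this.1 h'))]
    rw [e1, e2]
    ring
  have h3 : ∑ S : Finset T, sgn v (tog v S) * sgn w (tog v S) =
      -∑ S : Finset T, sgn v S * sgn w S := by
    rw [← Finset.sum_neg_distrib]
    exact Finset.sum_congr rfl fun S _ => h2 S
  linarith

lemma sgn_sq (v : T) (S : Finset T) : sgn v S * sgn v S = 1 := by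
  unfold sgn
  split_ifs <;> norm_num

lemma card_inter_sub (B S : Finset T) :
    ((S ∩ B).card : ℝ) - B.card / 2 = (∑ v ∈ B, sgn v S) / 2 := by
  have h1 : ((S ∩ B).card : ℝ) = ∑ v ∈ B, if v ∈ S then (1 : ℝ) else 0 := by
    rw [Finset.sum_ite_mem, Finset.sum_const, nsmul_eq_mul, mul_one, Finset.inter_comm]
  have h2 : (B.card : ℝ) = ∑ v ∈ B, (1 : ℝ) := by simp
  rw [h1, h2, Finset.sum_div, ← Finset.sum_sub_distrib, Finset.sum_div]
  refine Finset.sum_congr rfl fun v _ => ?_
  unfold sgn
  split_ifs <;> norm_num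

/-- The variance. -/
lemma sum_dev (B : Finset T) :
    ∑ S : Finset T, (((S ∩ B).card : ℝ) - B.card / 2) ^ 2 =
      (2 : ℝ) ^ Fintype.card T * ((B.card : ℝ) / 4) := by
  have h1 : ∀ S : Finset T, (((S ∩ B).card : ℝ) - B.card / 2) ^ 2 =
      (∑ v ∈ B, ∑ w ∈ B, sgn v S * sgn w S) / 4 := by
    intro S
    rw [card_inter_sub, ← Finset.sum_mul_sum]
    ring
  rw [Finset.sum_congr rfl fun S _ => h1 S, ← Finset.sum_div, Finset.sum_comm]
  have h2 : ∀ v ∈ B, ∑ S : Finset T, ∑ w ∈ B, sgn v S * sgn w S = (2 : ℝ) ^ Fintype.card T := by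
    intro v hv
    rw [Finset.sum_comm]
    rw [Finset.sum_eq_single v]
    · rw [Finset.sum_congr rfl fun S _ => sgn_sq v S]
      simp
    · intro w _ hw
      exact sum_sgn_mul hw.symm
    · intro hv'
      exact absurd hv hv'
  rw [Finset.sum_congr rfl h2, Finset.sum_const, nsmul_eq_mul]
  ring

/-- Chebyshev. -/
lemma card_dev (B : Finset T) {a : ℝ} (ha : 0 < a) :
    ((Finset.univ.filter fun S : Finset T =>
      a < |((S ∩ B).card : ℝ) - B.card / 2|).card : ℝ) ≤
      (2 : ℝ) ^ Fintype.card T * ((B.card : ℝ) / (4 * a ^ 2)) := by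
  classical
  have h1 : ((Finset.univ.filter fun S : Finset T =>
      a < |((S ∩ B).card : ℝ) - B.card / 2|).card : ℝ) * a ^ 2 ≤
      ∑ S : Finset T, (((S ∩ B).card : ℝ) - B.card / 2) ^ 2 := by
    rw [← nsmul_eq_mul, ← Finset.sum_const]
    refine (Finset.sum_le_sum ?_).trans (Finset.sum_le_sum_of_subset_of_nonneg
      (Finset.filter_subset (fun S : Finset T =>
        a < |((S ∩ B).card : ℝ) - B.card / 2|) Finset.univ) fun S _ _ => sq_nonneg _)
    intro S hS
    rw [Finset.mem_filter] at hS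
    have h2 := hS.2
    rw [← sq_abs (((S ∩ B).card : ℝ) - B.card / 2)]
    exact pow_le_pow_left₀ ha.le h2.le 2
  rw [sum_dev] at h1
  have h3 : 0 < a ^ 2 := by positivity
  rw [← le_div_iff₀ h3] at h1
  refine h1.trans (le_of_eq ?_)
  field_simp

/-- The elements of `LS D` are determined by their supports. -/
lemma LS_inj {D : Finset T} {m m' : T → Ty} (h : m ∈ LS D) (h' : m' ∈ LS D)
    (hs : supp m = supp m') : m = m' := by
  funext v
  have h1 := h v
  have h2 := h' v
  have h3 : m v ≠ 0 ↔ m' v ≠ 0 := by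
    have a1 : v ∈ supp m ↔ v ∈ supp m' := by rw [hs]
    simpa [supp] using a1
  have hz : ∀ a : ZMod 2, a = 0 ∨ a = 1 := by decide
  by_cases hv : v ∈ D
  · rw [if_pos hv] at h1 h2
    rcases hz (m v).1 with a | a <;> rcases hz (m' v).1 with b | b
    · exact Prod.ext (a.trans b.symm) (h1.trans h2.symm)
    · exfalso
      have : m v = 0 := Prod.ext a h1
      have c := (not_congr h3).1 (not_not.2 this)
      rw [not_not] at c
      rw [c] at b
      simp at b
    · exfalso
      have : m' v = 0 := Prod.ext b h2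
      have c := (not_congr h3).2 (not_not.2 this)
      rw [not_not] at c
      rw [c] at a
      simp at a
    · exact Prod.ext (a.trans b.symm) (h1.trans h2.symm)
  · rw [if_neg hv] at h1 h2
    rcases hz (m v).2 with a | a <;> rcases hz (m' v).2 with b | b
    · exact Prod.ext (h1.trans h2.symm) (a.trans b.symm)
    · exfalso
      have : m v = 0 := Prod.ext h1 a
      have c := (not_congr h3).1 (not_not.2 this)
      rw [not_not] at c
      rw [c] at b
      simp at b
    · exfalso
      have : m' v = 0 := Prod.ext h2 b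
      have c := (not_congr h3).2 (not_not.2 this)
      rw [not_not] at c
      rw [c] at a
      simp at a
    · exact Prod.ext (h1.trans h2.symm) (a.trans b.symm)

end Moments

theorem blc : BLCStmt := by
  intro ε η hε hη
  obtain ⟨k0, hk0⟩ := exists_nat_gt (1 / (2 * η ^ 2 * ε))
  refine ⟨max k0 1, ?_⟩
  intro T _ _ T1 D hk
  classical
  have hn1 : (1 : ℝ) ≤ T1.card := by exact_mod_cast (le_max_right k0 1).trans hk
  have hn0 : (0 : ℝ) < T1.card := by linarith
  have hn2 : 1 / (2 * η ^ 2 * ε) ≤ T1.card :=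
    hk0.le.trans (by exact_mod_cast (le_max_left k0 1).trans hk)
  have ha : 0 < η * T1.card := by positivity
  set A := Finset.univ.filter fun S : Finset T =>
    η * T1.card < |((S ∩ (D ∩ T1)).card : ℝ) - (D ∩ T1).card / 2| with hA
  set B := Finset.univ.filter fun S : Finset T =>
    η * T1.card < |((S ∩ (T1 \ D)).card : ℝ) - (T1 \ D).card / 2| with hB
  have h1 : {m | m ∈ LS D ∧ ¬ Bal η T1 D m}.ncard ≤ (A ∪ B).card := by
    rw [← Set.ncard_coe_finset]
    refine Set.ncard_le_ncard_of_injOn supp ?_ ?_ (Finset.finite_toSet _)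
    · rintro m ⟨_, hm⟩
      rw [Finset.mem_coe, Finset.mem_union, hA, hB, Finset.mem_filter, Finset.mem_filter]
      unfold Bal at hm
      rw [not_and_or, not_le, not_le] at hm
      rcases hm with hm | hm
      · exact Or.inl ⟨Finset.mem_univ _, hm⟩
      · exact Or.inr ⟨Finset.mem_univ _, hm⟩
    · rintro m ⟨hm, _⟩ m' ⟨hm', _⟩ h
      exact LS_inj hm hm' h
  have h2 : ((A ∪ B).card : ℝ) ≤ A.card + B.card := by exact_mod_cast Finset.card_union_le A B
  have h3 := card_dev (D ∩ T1) ha
  have h4 := card_dev (T1 \ D) ha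
  have h5 : ((D ∩ T1).card : ℝ) + (T1 \ D).card = T1.card := by
    have := Finset.card_sdiff_add_card_inter T1 D
    rw [Finset.inter_comm] at this
    exact_mod_cast (by omega : (D ∩ T1).card + (T1 \ D).card = T1.card)
  have h6 : ((D ∩ T1).card : ℝ) / (4 * (η * T1.card) ^ 2) +
      (T1 \ D).card / (4 * (η * T1.card) ^ 2) ≤ ε := by
    rw [← add_div, h5, div_le_iff₀ (by positivity)]
    rw [div_le_iff₀ (by positivity)] at hn2
    have e1 : ε * (4 * (η * (T1.card : ℝ)) ^ 2) =
        2 * (T1.card * ((T1.card : ℝ) * (2 * η ^ 2 * ε))) := by ring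
    rw [e1]
    have e2 : (T1.card : ℝ) * 1 ≤ T1.card * ((T1.card : ℝ) * (2 * η ^ 2 * ε)) :=
      mul_le_mul_of_nonneg_left hn2 hn0.le
    linarith
  have h7 : (0 : ℝ) < 2 ^ Fintype.card T := by positivity
  calc ({m | m ∈ LS D ∧ ¬ Bal η T1 D m}.ncard : ℝ) ≤ (A ∪ B).card := by exact_mod_cast h1
    _ ≤ A.card + B.card := h2
    _ ≤ 2 ^ Fintype.card T * ((D ∩ T1).card / (4 * (η * T1.card) ^ 2)) +
        2 ^ Fintype.card T * ((T1 \ D).card / (4 * (η * T1.card) ^ 2)) := by
        rw [hA, hB]
        exact add_le_add h3 h4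
    _ = 2 ^ Fintype.card T * (((D ∩ T1).card : ℝ) / (4 * (η * T1.card) ^ 2) +
        (T1 \ D).card / (4 * (η * T1.card) ^ 2)) := by ring
    _ ≤ 2 ^ Fintype.card T * ε := mul_le_mul_of_nonneg_left h6 h7.le
    _ = ε * 2 ^ Fintype.card T := mul_comm _ _

end Pool.PRL
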