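import Pool.Agent.H75.PRL.S4

/-!
# The law on two slices of equal degree

Module SLZ: from SLC (twice) and the parity statement PAR.
-/

set_option autoImplicit false

namespace Pool.PRL

section Slices

variable {T : Type} [Fintype T] [DecidableEq T]

lemma sl_card {T1 D2 : Finset T} (h : Disjoint T1 D2) (i : ℕ) :
    (sl T1 D2 i).card = T1.card.choose i := by
  rw [← Finset.card_powersetCard]
  refine Finset.card_bij' (fun D _ => D ∩ T1) (fun S _ => S ∪ D2) ?_ ?_ ?_ ?_
  · intro D hD
    rw [sl, Finset.mem_filter] at hD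
    rw [Finset.mem_powersetCard]
    exact ⟨Finset.inter_subset_right, hD.2.2⟩
  · intro S hS
    rw [Finset.mem_powersetCard] at hS
    rw [sl, Finset.mem_filter]
    refine ⟨Finset.mem_univ _, ?_, ?_⟩
    · rw [Finset.union_sdiff_distrib, Finset.sdiff_eq_empty_iff_subset.2 hS.1,
        Finset.empty_union]
      exact Finset.sdiff_eq_self_of_disjoint h.symm
    · rw [Finset.union_inter_distrib_right, Finset.inter_eq_left.2 hS.1,
        Finset.disjoint_iff_inter_eq_empty.1 h.symm, Finset.union_empty]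
      exact hS.2
  · intro D hD
    rw [sl, Finset.mem_filter] at hD
    rw [← hD.2.1]
    rw [Finset.union_comm]
    exact Finset.sdiff_union_inter D T1
  · intro S hS
    rw [Finset.mem_powersetCard] at hS
    rw [Finset.union_inter_distrib_right, Finset.inter_eq_left.2 hS.1,
      Finset.disjoint_iff_inter_eq_empty.1 h.symm, Finset.union_empty]

lemma card_of_mem_sl {T1 D2 D : Finset T} {i : ℕ} (hD : D ∈ sl T1 D2 i) :
    D.card = D2.card + i := by
  rw [sl, Finset.mem_filter] at hD
  rw [← hD.2.1, ← hD.2.2, ← Finset.card_sdiff_add_card_inter D T1]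

end Slices

theorem slz (hSLC : SLCStmt) (hPAR : PARStmt) : SLZStmt := by
  intro ε hε
  obtain ⟨k0, η, hη, h⟩ := hSLC ε hε
  refine ⟨k0, η, hη, ?_⟩
  intro T _ _ T1 T2 j hd hU h2 h1 hj M hq hM hbad
  obtain ⟨s, hs⟩ := hPAR T M hq hM
  obtain ⟨b, hb⟩ : ∃ b, b = (2 * j + 1).choose j := ⟨_, rfl⟩
  have hb0 : 0 < b := by rw [hb]; exact Nat.choose_pos (by omega)
  have hdd : ∀ D2 : Finset T, D2 = ∅ ∨ D2 = T2 → Disjoint T1 D2 := by
    rintro D2 (h | h)
    · rw [h]; exact Finset.disjoint_empty_right _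
    · rw [h]; exact hd
  have hcj : ∀ D2 : Finset T, D2 = ∅ ∨ D2 = T2 → (sl T1 D2 j).card = b := by
    intro D2 hD2
    rw [sl_card (hdd D2 hD2), h1, hb]
  have hcj1 : ∀ D2 : Finset T, D2 = ∅ ∨ D2 = T2 → (sl T1 D2 (j + 1)).card = b := by
    intro D2 hD2
    rw [sl_card (hdd D2 hD2), h1, hb]
    have := Nat.choose_symm_of_eq_add (n := 2 * j + 1) (a := j + 1) (b := j) (by omega)
    rw [this]
  -- the exponent
  let Nr : ℕ → Finset T → Prop := fun r D => {m | m ∈ M ∧ m ∈ LS D}.ncard = 2 ^ r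
  have hpar : ∀ r D, Nr r D → Even (r + s + D.card) := by
    intro r D hr
    obtain ⟨r', h3, h4⟩ := hs D
    have h5 : (2 : ℕ) ^ r = 2 ^ r' := by
      rw [← h3]; exact hr.symm
    have h6 : r = r' := Nat.pow_right_injective (le_refl 2) h5
    rw [h6]; exact h4
  have hT2 : T2 ≠ ∅ := by
    intro h0
    rw [h0] at h2
    simp at h2
  have hdis : Disjoint (sl T1 ∅ (j + 1)) (sl T1 T2 j) := by
    rw [Finset.disjoint_left]
    intro D hD hD'
    rw [sl, Finset.mem_filter] at hD hD'
    exact hT2 (hD'.2.1.symm.trans hD.2.1)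
  have hcard : (sl T1 ∅ (j + 1) ∪ sl T1 T2 j).card = 2 * b := by
    rw [Finset.card_union_of_disjoint hdis, hcj1 ∅ (Or.inl rfl), hcj T2 (Or.inr rfl)]
    ring
  -- the sets by parity
  have hset : ∀ r, (Even (r + s + j) →
      {D | D ∈ sl T1 ∅ (j + 1) ∪ sl T1 T2 j ∧ Nr r D} =
        {D | D ∈ sl T1 T2 j ∪ sl T1 T2 (j + 1) ∧ Nr r D}) ∧
      (¬ Even (r + s + j) → {D | D ∈ sl T1 ∅ (j + 1) ∪ sl T1 T2 j ∧ Nr r D} =
        {D | D ∈ sl T1 ∅ j ∪ sl T1 ∅ (j + 1) ∧ Nr r D}) := by
    intro r
    constructor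
    · intro he
      ext D
      simp only [Set.mem_ofPred_eq, Finset.mem_union]
      constructor
      · rintro ⟨h3 | h3, h4⟩
        · exfalso
          have h5 := hpar r D h4
          rw [card_of_mem_sl h3, Finset.card_empty] at h5
          rw [Nat.even_iff] at h5 he
          omega
        · exact ⟨Or.inl h3, h4⟩
      · rintro ⟨h3 | h3, h4⟩
        · exact ⟨Or.inr h3, h4⟩
        · exfalso
          have h5 := hpar r D h4
          rw [card_of_mem_sl h3, h2] at h5
          rw [Nat.even_iff] at h5 he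
          omega
    · intro he
      ext D
      simp only [Set.mem_ofPred_eq, Finset.mem_union]
      constructor
      · rintro ⟨h3 | h3, h4⟩
        · exact ⟨Or.inr h3, h4⟩
        · exfalso
          have h5 := hpar r D h4
          rw [card_of_mem_sl h3, h2] at h5
          rw [Nat.even_iff] at h5 he
          omega
      · rintro ⟨h3 | h3, h4⟩
        · exfalso
          have h5 := hpar r D h4
          rw [card_of_mem_sl h3, Finset.card_empty] at h5
          rw [Nat.even_iff] at h5 he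
          omega
        · exact ⟨Or.inl h3, h4⟩
  refine ⟨?_, ?_, ?_⟩
  · rw [hcard, hb]
  · -- exactly one half
    by_cases hp : Even (s + j)
    · have e1 : {D | D ∈ sl T1 ∅ (j + 1) ∪ sl T1 T2 j ∧
          ∃ r, Even r ∧ {m | m ∈ M ∧ m ∈ LS D}.ncard = 2 ^ r} = ↑(sl T1 T2 j) := by
        ext D
        simp only [Set.mem_ofPred_eq, Finset.mem_union, Finset.mem_coe]
        constructor
        · rintro ⟨h3 | h3, r, h4, h5⟩
          · exfalso
            have h6 := hpar r D h5
            rw [card_of_mem_sl h3, Finset.card_empty] at h6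
            rw [Nat.even_iff] at h6 hp h4
            omega
          · exact h3
        · intro h3
          obtain ⟨r, h4, h5⟩ := hs D
          refine ⟨Or.inr h3, r, ?_, h4⟩
          rw [card_of_mem_sl h3, h2] at h5
          rw [Nat.even_iff] at h5 hp ⊢
          omega
      rw [e1, Set.ncard_coe_finset, hcj T2 (Or.inr rfl), hb]
    · have e1 : {D | D ∈ sl T1 ∅ (j + 1) ∪ sl T1 T2 j ∧
          ∃ r, Even r ∧ {m | m ∈ M ∧ m ∈ LS D}.ncard = 2 ^ r} = ↑(sl T1 ∅ (j + 1)) := by
        ext D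
        simp only [Set.mem_ofPred_eq, Finset.mem_union, Finset.mem_coe]
        constructor
        · rintro ⟨h3 | h3, r, h4, h5⟩
          · exact h3
          · exfalso
            have h6 := hpar r D h5
            rw [card_of_mem_sl h3, h2] at h6
            rw [Nat.even_iff] at h6 hp h4
            omega
        · intro h3
          obtain ⟨r, h4, h5⟩ := hs D
          refine ⟨Or.inl h3, r, ?_, h4⟩
          rw [card_of_mem_sl h3, Finset.card_empty] at h5
          rw [Nat.even_iff] at h5 hp ⊢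
          omega
      rw [e1, Set.ncard_coe_finset, hcj1 ∅ (Or.inl rfl), hb]
  · intro R
    have hA := h T T1 ∅ j (hdd ∅ (Or.inl rfl)) h1 hj M hq hM (hbad ∅ (Or.inl rfl)) R
    have hB := h T T1 T2 j (hdd T2 (Or.inr rfl)) h1 hj M hq hM (hbad T2 (Or.inr rfl)) R
    rw [← hb] at hA hB ⊢
    have hbr : (0 : ℝ) < b := by exact_mod_cast hb0
    have key : ∀ r, |({D | D ∈ sl T1 ∅ (j + 1) ∪ sl T1 T2 j ∧
        {m | m ∈ M ∧ m ∈ LS D}.ncard = 2 ^ r}.ncard : ℝ) / (2 * (b : ℝ)) - PR r| ≤
        (|({D | D ∈ sl T1 ∅ j ∪ sl T1 ∅ (j + 1) ∧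
          {m | m ∈ M ∧ m ∈ LS D}.ncard = 2 ^ r}.ncard : ℝ) / b - 2 * PR r| +
        |({D | D ∈ sl T1 T2 j ∪ sl T1 T2 (j + 1) ∧
          {m | m ∈ M ∧ m ∈ LS D}.ncard = 2 ^ r}.ncard : ℝ) / b - 2 * PR r|) / 2 := by
      intro r
      have gen : ∀ x : ℝ, |x / (2 * (b : ℝ)) - PR r| = |x / b - 2 * PR r| / 2 := by
        intro x
        have e1 : x / (2 * (b : ℝ)) - PR r = (x / b - 2 * PR r) / 2 := by
          field_simp
        rw [e1, abs_div, abs_of_pos (by norm_num : (0 : ℝ) < 2)]
      rw [gen]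
      by_cases he : Even (r + s + j)
      · have e2 := (hset r).1 he
        simp only [Nr] at e2
        rw [e2]
        have := abs_nonneg (({D | D ∈ sl T1 ∅ j ∪ sl T1 ∅ (j + 1) ∧
          {m | m ∈ M ∧ m ∈ LS D}.ncard = 2 ^ r}.ncard : ℝ) / b - 2 * PR r)
        linarith
      · have e2 := (hset r).2 he
        simp only [Nr] at e2
        rw [e2]
        have := abs_nonneg (({D | D ∈ sl T1 T2 j ∪ sl T1 T2 (j + 1) ∧
          {m | m ∈ M ∧ m ∈ LS D}.ncard = 2 ^ r}.ncard : ℝ) / b - 2 * PR r)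
        linarith
    refine (Finset.sum_le_sum fun r _ => key r).trans ?_
    rw [← Finset.sum_div, Finset.sum_add_distrib]
    linarith

end Pool.PRL
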