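import Pool.Agent.H75.PRL.S6
import Pool.Agent.H77.PRL.SLZ

/-!
# The law for the twists of almost all the curves of the family

Module LAW: from GDF, MLG, SLZ and PAR.
-/

set_option autoImplicit false

namespace Pool.PRL

open Polynomial Matrix Pool.AVR Pool.AVS Pool.RZ

section

variable {F : Type} [Field F]

lemma mem_sb {T S : Finset F[X]} {P : {P : F[X] // P ∈ T}} : P ∈ sb T S ↔ (P : F[X]) ∈ S := by
  classical
  unfold sb
  rw [Finset.mem_filter]
  exact ⟨fun h => h.2, fun h => ⟨Finset.mem_univ _, h⟩⟩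

lemma sb_inj {T S S' : Finset F[X]} (hS : S ⊆ T) (hS' : S' ⊆ T) (h : sb T S = sb T S') :
    S = S' := by
  ext P
  constructor
  · intro hP
    have h1 : (⟨P, hS hP⟩ : {P : F[X] // P ∈ T}) ∈ sb T S := mem_sb.2 hP
    rw [h] at h1
    exact mem_sb.1 h1
  · intro hP
    have h1 : (⟨P, hS' hP⟩ : {P : F[X] // P ∈ T}) ∈ sb T S' := mem_sb.2 hP
    rw [← h] at h1
    exact mem_sb.1 h1

open Classical in
lemma sb_card {T S : Finset F[X]} (hS : S ⊆ T) : (sb T S).card = S.card := by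
  refine Finset.card_bij (fun P _ => (P : F[X])) ?_ ?_ ?_
  · intro P hP
    exact mem_sb.1 hP
  · intro P _ Q _ h
    exact Subtype.ext h
  · intro P hP
    exact ⟨⟨P, hS hP⟩, mem_sb.2 hP, rfl⟩

open Classical in
lemma sb_empty (T : Finset F[X]) : sb T ∅ = ∅ := by
  ext P
  rw [mem_sb]
  simp

open Classical in
/-- The sets of `Sl T1 T2` and the two slices. -/
lemma image_sb {T1 T2 : Finset F[X]} {j : ℕ} (hd : Disjoint T1 T2) (h1 : T1.card = 2 * j + 1) :
    (∀ S ∈ Sl T1 T2, S ⊆ T1 ∪ T2) ∧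
      sb (T1 ∪ T2) '' (Sl T1 T2 : Set (Finset F[X])) =
        ↑(sl (sb (T1 ∪ T2) T1) ∅ (j + 1) ∪ sl (sb (T1 ∪ T2) T1) (sb (T1 ∪ T2) T2) j) := by
  have hj : T1.card / 2 = j := by omega
  have hsub : ∀ S ∈ Sl T1 T2, S ⊆ T1 ∪ T2 := by
    intro S hS
    unfold Sl at hS
    rw [Finset.mem_union, Finset.mem_image] at hS
    rcases hS with hS | ⟨S', hS', rfl⟩
    · exact (Finset.mem_powersetCard.1 hS).1.trans Finset.subset_union_left
    · exact Finset.union_subset_union_left (Finset.mem_powersetCard.1 hS').1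
  refine ⟨hsub, ?_⟩
  ext D
  simp only [Set.mem_image, Finset.mem_coe, Finset.mem_union]
  constructor
  · rintro ⟨S, hS, rfl⟩
    unfold Sl at hS
    rw [Finset.mem_union, Finset.mem_image, hj] at hS
    rcases hS with hS | ⟨S', hS', rfl⟩
    · left
      obtain ⟨a1, a2⟩ := Finset.mem_powersetCard.1 hS
      unfold sl
      rw [Finset.mem_filter]
      refine ⟨Finset.mem_univ _, ?_, ?_⟩
      · ext P
        rw [Finset.mem_sdiff, mem_sb, mem_sb]
        simp only [Finset.notMem_empty, iff_false, not_and, not_not]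
        exact fun h => a1 h
      · have e1 : sb (T1 ∪ T2) S ∩ sb (T1 ∪ T2) T1 = sb (T1 ∪ T2) S := by
          rw [Finset.inter_eq_left]
          intro P hP
          exact mem_sb.2 (a1 (mem_sb.1 hP))
        rw [e1, sb_card (a1.trans Finset.subset_union_left), a2]
    · right
      obtain ⟨a1, a2⟩ := Finset.mem_powersetCard.1 hS'
      unfold sl
      rw [Finset.mem_filter]
      refine ⟨Finset.mem_univ _, ?_, ?_⟩
      · ext P
        rw [Finset.mem_sdiff, mem_sb, mem_sb, mem_sb, Finset.mem_union]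
        constructor
        · rintro ⟨h | h, h'⟩
          · exact absurd (a1 h) h'
          · exact h
        · intro h
          exact ⟨Or.inr h, fun h' => Finset.disjoint_left.1 hd h' h⟩
      · have e1 : sb (T1 ∪ T2) (S' ∪ T2) ∩ sb (T1 ∪ T2) T1 = sb (T1 ∪ T2) S' := by
          ext P
          rw [Finset.mem_inter, mem_sb, mem_sb, mem_sb, Finset.mem_union]
          constructor
          · rintro ⟨h | h, h'⟩
            · exact h
            · exact absurd h (Finset.disjoint_left.1 hd h')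
          · intro h
            exact ⟨Or.inl h, a1 h⟩
        rw [e1, sb_card (a1.trans Finset.subset_union_left), a2]
  · intro hD
    -- the set of the elements
    obtain ⟨S, hS⟩ : ∃ S : Finset F[X], S = D.image Subtype.val := ⟨_, rfl⟩
    have hmS : ∀ P : {P : F[X] // P ∈ T1 ∪ T2}, (P : F[X]) ∈ S ↔ P ∈ D := by
      intro P
      rw [hS, Finset.mem_image]
      constructor
      · rintro ⟨Q, hQ, h⟩
        have : Q = P := Subtype.ext h
        rwa [← this]
      · intro h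
        exact ⟨P, h, rfl⟩
    have hST : S ⊆ T1 ∪ T2 := by
      intro P hP
      rw [hS, Finset.mem_image] at hP
      obtain ⟨Q, _, rfl⟩ := hP
      exact Q.2
    have hDS : sb (T1 ∪ T2) S = D := by
      ext P
      rw [mem_sb, hmS]
    refine ⟨S, ?_, hDS⟩
    have hin : sb (T1 ∪ T2) (S ∩ T1) = D ∩ sb (T1 ∪ T2) T1 := by
      ext P
      rw [Finset.mem_inter, mem_sb, mem_sb, Finset.mem_inter, hmS]
    have hcin : (S ∩ T1).card = (D ∩ sb (T1 ∪ T2) T1).card := by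
      rw [← hin, sb_card (Finset.inter_subset_right.trans Finset.subset_union_left)]
    unfold Sl
    rw [Finset.mem_union, Finset.mem_image, hj]
    rcases hD with hD | hD
    · left
      unfold sl at hD
      rw [Finset.mem_filter] at hD
      obtain ⟨-, b1, b2⟩ := hD
      have hST1 : S ⊆ T1 := by
        intro P hP
        by_contra hP1
        have : (⟨P, hST hP⟩ : {P : F[X] // P ∈ T1 ∪ T2}) ∈ D \ sb (T1 ∪ T2) T1 := by
          rw [Finset.mem_sdiff, mem_sb]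
          exact ⟨(hmS _).1 hP, hP1⟩
        rw [b1] at this
        exact absurd this (Finset.notMem_empty _)
      rw [Finset.mem_powersetCard]
      refine ⟨hST1, ?_⟩
      rw [← b2, ← hcin, Finset.inter_eq_left.2 hST1]
    · right
      unfold sl at hD
      rw [Finset.mem_filter] at hD
      obtain ⟨-, b1, b2⟩ := hD
      refine ⟨S ∩ T1, ?_, ?_⟩
      · rw [Finset.mem_powersetCard]
        exact ⟨Finset.inter_subset_right, by rw [hcin, b2]⟩
      · ext P
        rw [Finset.mem_union, Finset.mem_inter]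
        constructor
        · rintro (h | h)
          · exact h.1
          · have : (⟨P, Finset.mem_union_right _ h⟩ : {P : F[X] // P ∈ T1 ∪ T2}) ∈
                D \ sb (T1 ∪ T2) T1 := by
              rw [b1, mem_sb]
              exact h
            exact (hmS ⟨P, Finset.mem_union_right _ h⟩).2 (Finset.mem_sdiff.1 this).1
        · intro h
          by_cases hP : P ∈ T1
          · exact Or.inl ⟨h, hP⟩
          · right
            have : (⟨P, hST h⟩ : {P : F[X] // P ∈ T1 ∪ T2}) ∈ D \ sb (T1 ∪ T2) T1 := by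
              rw [Finset.mem_sdiff, mem_sb]
              exact ⟨(hmS _).1 h, hP⟩
            rw [b1, mem_sb] at this
            exact this

end

open Classical in
/-- The law for one good curve. -/
theorem lawF_of_good (hMLG : MLGStmt) (hPAR : PARStmt) {F : Type} [Field F] [Finite F]
    (h2 : (2 : F) ≠ 0) {ε η : ℝ} {k0 : ℕ}
    (hS : ∀ (T : Type) [Fintype T] [DecidableEq T] (T1 T2 : Finset T) (j : ℕ), Disjoint T1 T2 →
      T1 ∪ T2 = Finset.univ → T2.card = 2 → T1.card = 2 * j + 1 → k0 ≤ j →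
      ∀ M : AddSubgroup (T → Ty), (∀ m ∈ M, qf m = 0) → Nat.card M = 2 ^ Fintype.card T →
      (∀ D2 : Finset T, D2 = ∅ ∨ D2 = T2 → ({D | D ∈ sl T1 D2 j ∪ sl T1 D2 (j + 1) ∧
        ∃ m ∈ M, m ≠ 0 ∧ m ∈ LS D ∧ ¬ Bal η T1 D m}.ncard : ℝ) ≤
          η * ((2 * j + 1).choose j : ℝ)) →
      (sl T1 ∅ (j + 1) ∪ sl T1 T2 j).card = 2 * (2 * j + 1).choose j ∧
      {D | D ∈ sl T1 ∅ (j + 1) ∪ sl T1 T2 j ∧
        ∃ r, Even r ∧ {m | m ∈ M ∧ m ∈ LS D}.ncard = 2 ^ r}.ncard = (2 * j + 1).choose j ∧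
      ∀ R : ℕ, ∑ r ∈ Finset.range R, |({D | D ∈ sl T1 ∅ (j + 1) ∪ sl T1 T2 j ∧
        {m | m ∈ M ∧ m ∈ LS D}.ncard = 2 ^ r}.ncard : ℝ) / (2 * (2 * j + 1).choose j : ℝ) -
          PR r| ≤ ε)
    {T1 T2 : Finset F[X]} {j : ℕ} (hd : Disjoint T1 T2) (hE : EvT (T1 ∪ T2)) (hT2 : T2.card = 2)
    (hT1 : T1.card = 2 * j + 1) (hj : k0 ≤ j) {n : ℕ} (hn : 1 ≤ n)
    {f : F[X] × F[X] × F[X]} (hf : f ∈ FmT F n (T1 ∪ T2)) (hG : Good η T1 T2 j f) :
    LawF ε T1 T2 f := by
  obtain ⟨M, hq, hM, hpat, hsel⟩ := hMLG F h2 n (T1 ∪ T2) hn hE f hf hG.1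
  have hcT : Fintype.card {P : F[X] // P ∈ T1 ∪ T2} = (T1 ∪ T2).card := Fintype.card_coe _
  obtain ⟨hsub, himg⟩ := image_sb hd hT1
  have hM' : Nat.card M = 2 ^ Fintype.card {P : F[X] // P ∈ T1 ∪ T2} := by rw [hcT, hM]
  obtain ⟨k1, k2, k3⟩ := hS {P : F[X] // P ∈ T1 ∪ T2} (sb (T1 ∪ T2) T1) (sb (T1 ∪ T2) T2) j
    (by
      rw [Finset.disjoint_left]
      intro P hP hP'
      exact Finset.disjoint_left.1 hd (mem_sb.1 hP) (mem_sb.1 hP'))
    (by
      ext P
      rw [Finset.mem_union, mem_sb, mem_sb]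
      simp only [Finset.mem_univ, iff_true]
      exact Finset.mem_union.1 P.2)
    (by rw [sb_card Finset.subset_union_right, hT2])
    (by rw [sb_card Finset.subset_union_left, hT1]) hj M hq hM'
    (by
      intro D2 hD2
      obtain ⟨D3, hD3, hD23⟩ : ∃ D3 : Finset F[X], (D3 = ∅ ∨ D3 = T2) ∧
          D2 = sb (T1 ∪ T2) D3 := by
        rcases hD2 with h | h
        · exact ⟨∅, Or.inl rfl, by rw [h, sb_empty]⟩
        · exact ⟨T2, Or.inr rfl, h⟩
      rw [hD23]
      refine le_trans ?_ (hG.2 D3 hD3)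
      refine Nat.cast_le.2 (Set.ncard_le_ncard ?_ (Set.toFinite _))
      rintro D ⟨hD, m, hm, hm0, hmL, hmB⟩
      exact ⟨hD, m, hm0, hmL, hmB, hpat m hm hm0⟩)
  obtain ⟨s, hs⟩ := hPAR {P : F[X] // P ∈ T1 ∪ T2} M hq hM'
  have hinj : Set.InjOn (sb (T1 ∪ T2)) (Sl T1 T2 : Set (Finset F[X])) := by
    intro S hS' S' hS'' h
    exact sb_inj (hsub S hS') (hsub S' hS'') h
  have key : ∀ Φ : ℕ → Prop, {S | S ∈ Sl T1 T2 ∧ Φ (Sel (tw (pr S) f)).ncard}.ncard =
      {D | D ∈ sl (sb (T1 ∪ T2) T1) ∅ (j + 1) ∪ sl (sb (T1 ∪ T2) T1) (sb (T1 ∪ T2) T2) j ∧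
        Φ {m | m ∈ M ∧ m ∈ LS D}.ncard}.ncard := by
    intro Φ
    rw [← (hinj.mono fun S hS' => hS'.1).ncard_image (f := sb (T1 ∪ T2))]
    congr 1
    ext D
    constructor
    · rintro ⟨S, ⟨a1, a2⟩, rfl⟩
      refine ⟨?_, ?_⟩
      · have : sb (T1 ∪ T2) S ∈ sb (T1 ∪ T2) '' (Sl T1 T2 : Set (Finset F[X])) :=
          ⟨S, a1, rfl⟩
        rw [himg] at this
        exact this
      · rw [← (hsel S (hsub S a1)).2]
        exact a2
    · rintro ⟨a1, a2⟩
      have : D ∈ sb (T1 ∪ T2) '' (Sl T1 T2 : Set (Finset F[X])) := by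
        rw [himg]
        exact a1
      obtain ⟨S, b1, b2⟩ := this
      refine ⟨S, ⟨b1, ?_⟩, b2⟩
      rw [(hsel S (hsub S b1)).2, b2]
      exact a2
  have hcard : (Sl T1 T2).card = 2 * (2 * j + 1).choose j := by
    rw [← k1, ← Set.ncard_coe_finset (sl _ _ _ ∪ sl _ _ _), ← himg,
      Set.ncard_image_of_injOn hinj, Set.ncard_coe_finset]
  refine ⟨fun S hS' => ?_, ?_, fun R => ?_⟩
  · obtain ⟨r, hr, -⟩ := hs (sb (T1 ∪ T2) S)
    refine ⟨(hsel S (hsub S hS')).1, r, ?_⟩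
    rw [(hsel S (hsub S hS')).2, hr]
  · rw [key (fun x => ∃ r : ℕ, Even r ∧ x = 2 ^ r), k2, hcard]
  · refine le_trans (le_of_eq ?_) (k3 R)
    refine Finset.sum_congr rfl fun r _ => ?_
    rw [key (fun x => x = 2 ^ r), hcard]
    push_cast
    rfl

theorem law (hGDF : GDFStmt) (hMLG : MLGStmt) (hSLZ : SLZStmt) (hPAR : PARStmt) : LAWStmt := by
  intro F _ _ h2 ε hε
  obtain ⟨k1, η, hη, hS⟩ := hSLZ ε hε
  obtain ⟨k2, hg⟩ := hGDF F h2 ε η hε hη
  refine ⟨max k1 k2, ?_⟩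
  intro T1 T2 j hd hE hT2 hT1 hj
  obtain ⟨N, hN⟩ := hg T1 T2 j hd hE hT2 hT1 ((le_max_right _ _).trans hj)
  refine ⟨max N 1, fun n hn => ?_⟩
  obtain ⟨hfin, hb⟩ := hN n ((le_max_left _ _).trans hn)
  refine ⟨hfin, le_trans ?_ hb⟩
  refine Nat.cast_le.2 (Set.ncard_le_ncard ?_ (hfin.subset fun f hf => hf.1))
  rintro f ⟨hf, hL⟩
  refine ⟨hf, fun hG => hL ?_⟩
  exact lawF_of_good hMLG hPAR h2 hS hd hE hT2 hT1 ((le_max_left _ _).trans hj)
    ((le_max_right _ _).trans hn) hf hG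

end Pool.PRL
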