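import Pool.Agent.H75.PRL.S2

/-!
# Square roots of elements congruent to one in a cubic algebra

Module SQR: the characteristic polynomial and two applications of the lemma of Hensel in the base
ring.
-/

set_option autoImplicit false

namespace Pool.PRL

open Polynomial Matrix Pool.AVR Pool.AVS Pool.RZ

section Charpoly

/-- A monic polynomial of degree three with coefficients in the base ring. -/
theorem exists_char {R : Type} [CommRing R] [Nontrivial R] (a b c : R) (p : R[X]) :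
    ∃ s1 s2 s3 : R, cub a b c ∣ p ^ 3 - C s1 * p ^ 2 + C s2 * p - C s3 := by
  have hc : cub a b c = X ^ 3 + C a * X ^ 2 + C b * X + C c := rfl
  have hm : (cub a b c).Monic := by
    rw [hc]
    monicity!
  have hdeg : (cub a b c).natDegree = 3 := by
    rw [hc]
    compute_degree!
  let pb := AdjoinRoot.powerBasis' hm
  have hdim : pb.dim = 3 := by
    change (AdjoinRoot.powerBasis' hm).dim = 3
    rw [AdjoinRoot.powerBasis'_dim, hdeg]
  have : Module.Free R (AdjoinRoot (cub a b c)) := Module.Free.of_basis pb.basis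
  have : Module.Finite R (AdjoinRoot (cub a b c)) := Module.Finite.of_basis pb.basis
  have hfr : Module.finrank R (AdjoinRoot (cub a b c)) = 3 := by
    rw [Module.finrank_eq_card_basis pb.basis, Fintype.card_fin, hdim]
  set x : AdjoinRoot (cub a b c) := AdjoinRoot.mk _ p with hx
  set χ : R[X] := (Algebra.lmul R (AdjoinRoot (cub a b c)) x).charpoly with hχ
  have h1 : χ.natDegree = 3 := by
    rw [hχ, LinearMap.charpoly_natDegree, hfr]
  have h2 : χ.Monic := LinearMap.charpoly_monic _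
  have h3 : aeval x χ = 0 := by
    have h4 := LinearMap.aeval_self_charpoly (Algebra.lmul R (AdjoinRoot (cub a b c)) x)
    rw [← hχ, aeval_algHom_apply] at h4
    have h5 := congrArg (fun T : Module.End R (AdjoinRoot (cub a b c)) => T 1) h4
    simpa using h5
  have h6 : χ = X ^ 3 + C (χ.coeff 2) * X ^ 2 + C (χ.coeff 1) * X + C (χ.coeff 0) := by
    have h7 := χ.as_sum_range_C_mul_X_pow
    rw [h1] at h7
    have h8 : χ.coeff 3 = 1 := by
      have := h2.coeff_natDegree
      rwa [h1] at this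
    rw [Finset.sum_range_succ, Finset.sum_range_succ, Finset.sum_range_succ,
      Finset.sum_range_succ, Finset.sum_range_zero, h8] at h7
    rw [h7]
    simp only [map_one, pow_zero, pow_one, mul_one, one_mul, zero_add]
    simp
    ring
  refine ⟨-χ.coeff 2, χ.coeff 1, -χ.coeff 0, ?_⟩
  rw [← AdjoinRoot.mk_eq_zero]
  rw [h6] at h3
  simp only [map_add, map_mul, map_pow, aeval_X, aeval_C] at h3
  simp only [map_add, map_sub, map_mul, map_pow, map_neg, AdjoinRoot.mk_C]
  rw [← hx]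
  have e1 : ∀ r : R, algebraMap R (AdjoinRoot (cub a b c)) r = AdjoinRoot.of (cub a b c) r :=
    fun r => rfl
  simp only [e1] at h3
  rw [← h3]
  ring

end Charpoly

section Hens

open IsLocalRing

/-- Square roots over a Henselian local ring. -/
theorem sqr_hens {R : Type} [CommRing R] [HenselianLocalRing R] (h2 : IsUnit (2 : R)) {π₀ : R}
    (hπ : π₀ ∈ maximalIdeal R) (a b c : R) (p : R[X]) :
    ∃ s g : R[X], cub a b c ∣ (1 + C π₀ * p) - s ^ 2 ∧ cub a b c ∣ (1 + C π₀ * p) * g - 1 := by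
  obtain ⟨σ1, σ2, σ3, hσ⟩ := exists_char a b c p
  obtain ⟨s1, hs1⟩ : ∃ s1, s1 = 3 + π₀ * σ1 := ⟨_, rfl⟩
  obtain ⟨s2, hs2⟩ : ∃ s2, s2 = 3 + 2 * π₀ * σ1 + π₀ ^ 2 * σ2 := ⟨_, rfl⟩
  obtain ⟨s3, hs3⟩ : ∃ s3, s3 = 1 + π₀ * σ1 + π₀ ^ 2 * σ2 + π₀ ^ 3 * σ3 := ⟨_, rfl⟩
  obtain ⟨u, hu⟩ : ∃ u : R[X], u = 1 + C π₀ * p := ⟨_, rfl⟩
  have hE : cub a b c ∣ u ^ 3 - C s1 * u ^ 2 + C s2 * u - C s3 := by
    have e1 : u ^ 3 - C s1 * u ^ 2 + C s2 * u - C s3 =
        C (π₀ ^ 3) * (p ^ 3 - C σ1 * p ^ 2 + C σ2 * p - C σ3) := by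
      rw [hu, hs1, hs2, hs3]
      simp only [map_add, map_mul, map_pow, map_one, map_ofNat]
      ring
    rw [e1]
    exact hσ.mul_left _
  -- residues
  have r0 : residue R π₀ = 0 := (residue_eq_zero_iff _).2 hπ
  have q2 : residue R 2 = 2 := map_ofNat _ 2
  have q3 : residue R 3 = 3 := map_ofNat _ 3
  have q4 : residue R 4 = 4 := map_ofNat _ 4
  have q8 : residue R 8 = 8 := map_ofNat _ 8
  have r1 : residue R s1 = 3 := by rw [hs1]; simp [r0, q3]
  have r2 : residue R s2 = 3 := by rw [hs2]; simp [r0, q3]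
  have r3 : residue R s3 = 1 := by rw [hs3]; simp [r0]
  have ht : residue R 2 ≠ 0 := (residue_ne_zero_iff_isUnit _).2 h2
  have ht' : (2 : ResidueField R) ≠ 0 := by
    have : residue R 2 = 2 := map_ofNat _ 2
    rwa [this] at ht
  -- the norm
  obtain ⟨n, hn, hn1⟩ := HenselianLocalRing.is_henselian (X ^ 2 - C s3 : R[X])
    (by monicity!) 1 (by
      rw [← residue_eq_zero_iff]
      simp [r3]) (by
      have e1 : (derivative (X ^ 2 - C s3 : R[X])).eval 1 = 2 := by
        simp only [derivative_sub, derivative_X_pow, derivative_C, eval_sub, eval_mul, eval_pow,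
          eval_X, eval_C, eval_zero]
        norm_num
      rw [e1]; exact h2)
  have hn2 : n ^ 2 = s3 := by
    have : (X ^ 2 - C s3 : R[X]).eval n = 0 := hn
    simp only [eval_sub, eval_pow, eval_X, eval_C] at this
    linear_combination this
  have rn : residue R n = 1 := by
    have := (residue_eq_zero_iff _).2 hn1
    rw [map_sub, map_one] at this
    linear_combination this
  -- the trace
  obtain ⟨t, ht0, ht1⟩ := HenselianLocalRing.is_henselian
    ((X ^ 2 - C s1) ^ 2 - C (4 * s2) - C (8 * n) * X : R[X])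
    (by monicity!) 3 (by
      rw [← residue_eq_zero_iff]
      simp only [eval_sub, eval_pow, eval_X, eval_C, eval_mul, map_sub, map_pow, map_mul, r1, r2,
        rn, q3, q4, q8]
      norm_num) (by
      rw [← residue_ne_zero_iff_isUnit]
      have e1 : (derivative ((X ^ 2 - C s1) ^ 2 - C (4 * s2) - C (8 * n) * X : R[X])).eval 3 =
          2 * (3 ^ 2 - s1) * (2 * 3) - 8 * n := by
        simp only [derivative_sub, derivative_pow, derivative_X, derivative_C, derivative_mul,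
          eval_sub, eval_mul, eval_pow, eval_X, eval_C, eval_add, eval_one, eval_zero]
        norm_num
      rw [e1]
      simp only [map_sub, map_pow, map_mul, r1, rn, q2, q3, q8]
      have e2 : (2 * (3 ^ 2 - 3) * (2 * 3) - 8 * 1 : ResidueField R) = 2 ^ 6 := by norm_num
      rw [e2]
      exact pow_ne_zero _ ht')
  have ht2 : (t ^ 2 - s1) ^ 2 - 4 * s2 - 8 * n * t = 0 := by
    have : ((X ^ 2 - C s1) ^ 2 - C (4 * s2) - C (8 * n) * X : R[X]).eval t = 0 := ht0
    simpa only [eval_sub, eval_pow, eval_X, eval_C, eval_mul] using this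
  have rt : residue R t = 3 := by
    have := (residue_eq_zero_iff _).2 ht1
    rw [map_sub, q3] at this
    linear_combination this
  obtain ⟨i2, hi2⟩ := h2.exists_right_inv
  obtain ⟨q, hq⟩ : ∃ q, q = i2 * (t ^ 2 - s1) := ⟨_, rfl⟩
  have hq1 : 2 * q = t ^ 2 - s1 := by
    rw [hq, ← mul_assoc, hi2, one_mul]
  have hq2 : q ^ 2 - 2 * n * t = s2 := by
    have e1 : (2 * 2 : R) * (q ^ 2 - 2 * n * t - s2) = 0 := by
      have : (2 * 2 : R) * (q ^ 2 - 2 * n * t - s2) = (2 * q) ^ 2 - 4 * s2 - 8 * n * t := by ring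
      rw [this, hq1, ht2]
    have e2 : (i2 * i2) * ((2 * 2 : R) * (q ^ 2 - 2 * n * t - s2)) =
        (2 * i2) * (2 * i2) * (q ^ 2 - 2 * n * t - s2) := by ring
    rw [e1, mul_zero, hi2, one_mul, one_mul] at e2
    linear_combination -e2
  have rq : residue R q = 3 := by
    have e1 := congrArg (residue R) hq1
    rw [map_mul, map_sub, map_pow, rt, r1, q2] at e1
    have e2 : (2 : ResidueField R) * (residue R q - 3) = 0 := by
      rw [mul_sub, e1]
      norm_num
    rcases mul_eq_zero.1 e2 with h | h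
    · exact absurd h ht'
    · linear_combination h
  have hN : IsUnit (s3 + q * s2 + q ^ 2 * s1 + q ^ 3) := by
    rw [← residue_ne_zero_iff_isUnit]
    simp only [map_add, map_mul, map_pow, r1, r2, r3, rq]
    have e2 : (1 + 3 * 3 + 3 ^ 2 * 3 + 3 ^ 3 : ResidueField R) = 2 ^ 6 := by norm_num
    rw [e2]
    exact pow_ne_zero _ ht'
  obtain ⟨M, hM⟩ := hN.exists_right_inv
  have hs3u : IsUnit s3 := by
    rw [← residue_ne_zero_iff_isUnit, r3]
    exact one_ne_zero
  obtain ⟨i3, hi3⟩ := hs3u.exists_right_inv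
  obtain ⟨E, hEd⟩ : ∃ E, E = u ^ 3 - C s1 * u ^ 2 + C s2 * u - C s3 := ⟨_, rfl⟩
  rw [← hEd] at hE
  obtain ⟨g, hg⟩ : ∃ g : R[X], g = u ^ 2 - C (s1 + q) * u + C (s2 + q * (s1 + q)) := ⟨_, rfl⟩
  obtain ⟨N, hNd⟩ : ∃ N, N = s3 + q * s2 + q ^ 2 * s1 + q ^ 3 := ⟨_, rfl⟩
  rw [← hNd] at hM
  have k1 : (u + C q) * g = C N + E := by
    rw [hg, hNd, hEd]
    simp only [map_add, map_mul, map_pow]
    ring
  have k2 : (C t * u + C n) ^ 2 = u * (u + C q) ^ 2 - E := by
    have a1 : C (n ^ 2) = (C s3 : R[X]) := by rw [hn2]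
    have a2 : C (2 * q) = (C (t ^ 2 - s1) : R[X]) := by rw [hq1]
    have a3 : C (q ^ 2 - 2 * n * t) = (C s2 : R[X]) := by rw [hq2]
    simp only [map_add, map_mul, map_pow, map_sub, map_ofNat] at a1 a2 a3
    rw [hEd]
    linear_combination a1 - u ^ 2 * a2 - u * a3
  have k3 : C N * C M = (1 : R[X]) := by rw [← map_mul, hM, map_one]
  refine ⟨C M * ((C t * u + C n) * g), C i3 * (u ^ 2 - C s1 * u + C s2), ?_, ?_⟩
  · rw [← hu]
    have e1 : u - (C M * ((C t * u + C n) * g)) ^ 2 =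
        E * (-(C M ^ 2 * (2 * C N * u + E * u - g ^ 2))) := by
      have e2 : (C M * ((C t * u + C n) * g)) ^ 2 = C M ^ 2 * ((C t * u + C n) ^ 2 * g ^ 2) := by
        ring
      rw [e2, k2]
      have e3 : (u * (u + C q) ^ 2 - E) * g ^ 2 = u * ((u + C q) * g) ^ 2 - E * g ^ 2 := by ring
      rw [e3, k1]
      linear_combination -(u * (C N * C M + 1)) * k3
    rw [e1]
    exact hE.mul_right _
  · rw [← hu]
    have k4 : C s3 * C i3 = (1 : R[X]) := by rw [← map_mul, hi3, map_one]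
    have e1 : u * (C i3 * (u ^ 2 - C s1 * u + C s2)) - 1 = E * C i3 := by
      rw [hEd]
      linear_combination k4
    rw [e1]
    exact hE.mul_right _

end Hens

section Local

/-- The uniformizer is in the maximal ideal. -/
theorem Loc.pi_max {L : Type} [Field L] {O : ValuationSubring L} {π₀ : L} (h : Loc L O π₀) :
    (⟨π₀, h.pi_mem⟩ : O) ∈ IsLocalRing.maximalIdeal O := by
  rw [IsLocalRing.mem_maximalIdeal, mem_nonunits_iff]
  intro hu
  obtain ⟨x, hx⟩ := hu.exists_right_inv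
  have h1 : π₀ * (x : L) = 1 := congrArg Subtype.val hx
  have h2 : π₀⁻¹ = (x : L) := (eq_inv_of_mul_eq_one_right h1).symm
  have h3 := (h.unif π₀ h.pi_mem h.pi_ne).2 (by rw [div_self h.pi_ne]; exact O.one_mem)
  exact h3 (h2 ▸ x.2)

/-- Square roots and inverses. -/
theorem sqr_loc {L : Type} [Field L] {O : ValuationSubring L} {π₀ : L} (h : Loc L O π₀)
    {a b c : L} {p : L[X]} (ha : a ∈ O) (hb : b ∈ O) (hc : c ∈ O) (hp : ∀ i, p.coeff i ∈ O) :
    ∃ s g : L[X], cub a b c ∣ (1 + C π₀ * p) - s ^ 2 ∧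
      cub a b c ∣ (1 + C π₀ * p) * g - 1 := by
  have := h.hens
  obtain ⟨p', hp'⟩ : ∃ p' : O[X], p'.map O.subtype = p := by
    have : p ∈ Polynomial.lifts O.subtype := by
      rw [Polynomial.lifts_iff_coeff_lifts]
      intro n
      exact ⟨⟨p.coeff n, hp n⟩, rfl⟩
    exact (Polynomial.mem_lifts p).1 this
  have h2 : IsUnit (2 : O) := by
    refine IsUnit.of_mul_eq_one ⟨(2 : L)⁻¹, h.two.2⟩ ?_
    refine Subtype.ext ?_
    change (2 : L) * (2 : L)⁻¹ = 1
    exact mul_inv_cancel₀ h.two.1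
  obtain ⟨s, g, h3, h4⟩ := sqr_hens h2 (Loc.pi_max h) ⟨a, ha⟩ ⟨b, hb⟩ ⟨c, hc⟩ p'
  have hcub : (cub (⟨a, ha⟩ : O) ⟨b, hb⟩ ⟨c, hc⟩).map O.subtype = cub a b c := by
    unfold cub
    simp only [Polynomial.map_add, Polynomial.map_pow, Polynomial.map_X, Polynomial.map_mul,
      Polynomial.map_C]
    rfl
  have hpi : O.subtype ⟨π₀, h.pi_mem⟩ = π₀ := rfl
  refine ⟨s.map O.subtype, g.map O.subtype, ?_, ?_⟩
  · have h5 := Polynomial.map_dvd O.subtype h3
    rw [hcub] at h5
    simpa only [Polynomial.map_sub, Polynomial.map_add, Polynomial.map_one, Polynomial.map_mul,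
      Polynomial.map_pow, Polynomial.map_C, hp', hpi] using h5
  · have h5 := Polynomial.map_dvd O.subtype h4
    rw [hcub] at h5
    simpa only [Polynomial.map_sub, Polynomial.map_add, Polynomial.map_one, Polynomial.map_mul,
      Polynomial.map_pow, Polynomial.map_C, hp', hpi] using h5

end Local

theorem sqr : SQRStmt := by
  intro L _ O π₀ h a b c p ha hb hc hp
  obtain ⟨s, -, hs, -⟩ := sqr_loc h ha hb hc hp
  exact ⟨s, hs⟩

theorem sql : SQLStmt := by
  intro F _ _ h2 P hP hPi f L _ O ι hI h hco hT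
  obtain ⟨s0, p, hd⟩ := hT
  have hmem : ∀ x : F[X], ι (rf x) ∈ O := by
    intro x
    rw [hI.mem]
    change ¬ P ∣ (algebraMap F[X] (RatFunc F) x).denom
    rw [RatFunc.denom_algebraMap]
    intro h1
    exact hPi.not_isUnit (isUnit_of_dvd_one h1)
  have hcub : (cubK f).map ι = cub (ι (kf f).1) (ι (kf f).2.1) (ι (kf f).2.2) := by
    unfold cubK cub kf
    simp only [Polynomial.map_add, Polynomial.map_pow, Polynomial.map_X, Polynomial.map_mul,
      Polynomial.map_C]
  obtain ⟨s1, g, h3, h4⟩ := sqr_loc hI.loc (p := (lf p).map ι) (hmem f.1) (hmem f.2.1)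
    (hmem f.2.2) (fun i => by
      rw [Polynomial.coeff_map, Polynomial.coeff_map]
      exact hmem _)
  have hcub' : cub (ι (rf f.1)) (ι (rf f.2.1)) (ι (rf f.2.2)) = (cubK f).map ι := by
    rw [hcub]; rfl
  rw [hcub'] at h3 h4
  have h5 := Polynomial.map_dvd ι hd
  simp only [Polynomial.map_sub, Polynomial.map_add, Polynomial.map_one, Polynomial.map_mul,
    Polynomial.map_pow, Polynomial.map_C] at h5
  obtain ⟨Q, hQ⟩ : ∃ Q, Q = (cubK f).map ι := ⟨_, rfl⟩
  obtain ⟨U, hU⟩ : ∃ U, U = 1 + C (ι (rf P)) * (lf p).map ι := ⟨_, rfl⟩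
  rw [← hQ] at h3 h4 h5 ⊢
  rw [← hU] at h3 h4
  have h6 : Q ∣ h.map ι * (s0.map ι) ^ 2 - U := by
    rw [hU]
    simpa only [Polynomial.map_add, Polynomial.map_one, Polynomial.map_mul,
      Polynomial.map_C] using h5
  obtain ⟨k3, hk3⟩ := h3
  obtain ⟨k4, hk4⟩ := h4
  obtain ⟨k6, hk6⟩ := h6
  -- the inverse of `s0` is `w = h s0 g`
  refine ⟨s1 * (h.map ι * s0.map ι * g), ?_⟩
  refine ⟨-(h.map ι * (2 * k4 + Q * k4 ^ 2)) - k6 * (h.map ι * U * g ^ 2) +
    k3 * (h.map ι * s0.map ι * g) ^ 2, ?_⟩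
  linear_combination (h.map ι * s0.map ι * g) ^ 2 * hk3 - h.map ι * U * g ^ 2 * hk6 -
    h.map ι * (U * g + 1 + Q * k4) * hk4

end Pool.PRL
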